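import Pool.Agent.Helper95.HS.GoalsB

/-! # HS, packet NULL0 -/

open Complex Metric Set Filter Topology MeasureTheory
open scoped ContDiff ComplexConjugate ComplexOrder Manifold Matrix

namespace Pool.Agent.Helper2.HS

open Pool.Agent.Helper95.Lin Pool.Agent.Helper16.Abund Pool.Agent.Helper10.SP
  Pool.Agent.Helper95.RK Pool.Agent.Helper57.HS Pool.Agent.Helper95.HS

universe u v

namespace N0

theorem exists_arrow {n : ℕ} {T : Set (Cn n)} {G : Type u} [Group G]
    {R : G → Cn n → Cn n → Prop} (hE : Et T R) {κ : Cn n → ℝ} (hκ : IsPUE T R κ)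
    {x : Cn n} (hx : x ∈ T) : ∃ γ y, R γ x y ∧ y ∈ T ∧ 0 < κ y := by
  have h := hκ.sum x hx
  by_contra hcon
  push Not at hcon
  have h0 : ∀ γ y, R γ x y → κ y = 0 := by
    intro γ y hR
    exact le_antisymm (hcon γ y hR (hE.mem γ x y hR).2) (hκ.nonneg y)
  have : AS R x (fun _ y => κ y) = 0 := by
    unfold AS
    apply finsum_mem_eq_zero_of_forall_eq_zero
    intro p hp
    exact h0 _ _ hp
  rw [this] at h
  exact zero_ne_one h

theorem cont_det {n : ℕ} {T : Set (Cn n)} {Q : Cn n → Matrix (Fin n) (Fin n) ℂ}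
    (hs : ∀ i j, ContDiffOn ℝ ∞ (fun x => Q x i j) T) :
    ContinuousOn (fun x => (Q x).det.re) T := by
  have hQ : ContinuousOn Q T :=
    continuousOn_pi.2 fun i => continuousOn_pi.2 fun j => (hs i j).continuousOn
  have h1 : Continuous fun M : Matrix (Fin n) (Fin n) ℂ => M.det.re :=
    Complex.continuous_re.comp (Continuous.matrix_det continuous_id)
  exact h1.comp_continuousOn hQ

theorem det_pos {n : ℕ} {M : Matrix (Fin n) (Fin n) ℂ} (h : M.PosDef) : 0 < M.det.re := by
  have := h.det_pos
  exact (Complex.pos_iff.1 this).1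

end N0

theorem null0 : S_NULL0.{u} := by
  intro n T G _ R Q hK κ hκ
  have hT : IsOpen T := hK.et.isOpen
  have hκc : Continuous κ := hκ.test.1.continuous
  have hcs : IsCompact (tsupport κ) := hκ.test.2.1
  have hsub : tsupport κ ⊆ T := hκ.test.2.2
  have hdet := N0.cont_det hK.smooth
  have hpos : ∀ x ∈ T, 0 < (Q x).det.re := fun x hx => N0.det_pos (hK.posDef x hx)
  -- the general statement
  have key : ∀ f : Cn n → ℝ, ContinuousOn f T → (∀ x ∈ T, 0 ≤ f x) →
      ∫ x in T, κ x * (Q x).det.re * f x ≤ 0 → ∀ x ∈ T, κ x * (Q x).det.re * f x = 0 := by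
    intro f hf h0 hI
    have hc : ContinuousOn (fun x => κ x * (Q x).det.re * f x) T :=
      (hκc.continuousOn.mul hdet).mul hf
    have hn : ∀ x ∈ T, 0 ≤ κ x * (Q x).det.re * f x := fun x hx =>
      mul_nonneg (mul_nonneg (hκ.nonneg x) (hpos x hx).le) (h0 x hx)
    have hint : IntegrableOn (fun x => κ x * (Q x).det.re * f x) T := by
      have h1 : IntegrableOn (fun x => κ x * (Q x).det.re * f x) (tsupport κ) :=
        (hc.mono hsub).integrableOn_compact hcs
      refine h1.of_forall_diff_eq_zero hT.measurableSet fun x hx => ?_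
      rw [image_eq_zero_of_notMem_tsupport hx.2]
      ring
    have hI0 : ∫ x in T, κ x * (Q x).det.re * f x = 0 :=
      le_antisymm hI (setIntegral_nonneg hT.measurableSet hn)
    have hae := (setIntegral_eq_zero_iff_of_nonneg_ae
      ((ae_restrict_iff' hT.measurableSet).2 (Eventually.of_forall hn)) hint).1 hI0
    intro x hx
    exact Measure.eqOn_open_of_ae_eq hae hT hc continuousOn_const hx
  constructor
  · obtain ⟨x, hx⟩ := hK.et.nonempty
    obtain ⟨γ, y, hR, hy, hy0⟩ := N0.exists_arrow hK.et hκ hx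
    by_contra hcon
    have h1 : ∫ x in T, κ x * (Q x).det.re * (fun _ : Cn n => (1 : ℝ)) x ≤ 0 := by
      simpa [vol] using hcon
    have := key (fun _ => 1) continuousOn_const (fun _ _ => zero_le_one) h1 y hy
    have h2 := hpos y hy
    simp only [mul_one] at this
    exact absurd this (mul_pos hy0 h2).ne'
  · intro f hf h0 hI x hx
    obtain ⟨γ, y, hR, hy, hy0⟩ := N0.exists_arrow hK.et hκ hx
    have h1 := key f hf.1.continuousOn h0 hI y hy
    have h2 := hpos y hy
    have h3 : f y = 0 := by
      rcases mul_eq_zero.1 h1 with h | h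
      · exact absurd h (mul_pos hy0 h2).ne'
      · exact h
    rw [← hf.2 γ x y hR, h3]

end Pool.Agent.Helper2.HS
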